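import Mathlib
import Pool.Agent.N365.HY.K3
import Pool.Agent.N365.HY.A
import Pool.Agent.N365.HY.B
import Pool.Agent.N365.HY.C
import Pool.Agent.N365.HY.D
import Pool.Agent.N365.HY.E
import Pool.Agent.N365.HY.F
import Pool.Agent.N365.HY.G
import Pool.Agent.N365.HY.H

/-!
# Szpiro's inequality for all forms over all number fields of bounded degree of all but few members
# of every one-parameter family of hyperelliptic curves

Let `C_t : y² = F_t(x)`, `F ∈ ℤ[T][x]`, be a one-parameter family of hyperelliptic curves of genus
`g ≥ 2`, with any singular fibres, and let `J = I ^ (4 g + 2) / Δ ^ k = A / D` be a non-constant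
absolute invariant of the family; here `I` is any invariant of degree `k` of the binary forms of
degree `2 g + 2`, with integral coefficients, and `Δ` is the discriminant. Among the about `B ^ 2`
rational `t` of height at most `B` all but `O(B ^ (1 + ε))`, all but `O(B ^ ε)` if `J` has at least
two poles on the projective line over `ℂ`, and among the integers `|t| ≤ B` all but `O(B ^ ε)` if
`J` has a finite pole, have the following property: `C_t` has genus `g`, and the inequality
`Δ_C ≤ M_C ^ κ` holds for ALL hyperelliptic curves `C` over ALL number fields `K` of degree at most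
`d` that are isomorphic to `C_t` over an algebraic closure of `K` (for example all quadratic
twists). The exponent `κ` depends only on `g`, `d`, `ε` and on the degree `N` of the
coefficients of the family in `T`, not on the family, and the constant is `1`.

The definitions of `Δ_C`, `M_C` (`discNorm`, `badNorm`), of the curves (`IsHyp`), their function
fields (`FunField`), the substitution `act` and the discriminant `discN` of a binary form are those
of `Pool/Agent/W318`.

Proof. The primes at which `J(t)` is not integral are, up to finitely many, the primes dividing the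
value of a squarefree binary form; for all but few `t` their product is at least `B ^ (ε / 8)`
(determinant method and Hensel's lemma, see `Pool/Agent/N365`). All places of `K` above such a prime
`p ≠ 2` are places of bad reduction of every form `C` of `C_t`, as absolute invariants are integral
at places of good reduction. On the other hand the exponent of the minimal discriminant of `C` at
`v` exceeds that of the discriminant of an integral equation of `C_t` at most by a constant
depending only on `g` and `d` (comparison of minimal models under base change, `local_minExp` of the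
starting library).

By helper365, with parts by helper693, helper316, helper434, helper527, helper896, helper717,
helper46 and helper348.
-/

set_option autoImplicit false

namespace Pool.Agent.Results.MP_ca2859_nt.EveryOneParameterFamily

open Polynomial NumberField
open Pool.Agent.W318 (IsHyp FunField act discN discNorm badNorm)

/-- the value of a polynomial in the coefficients `a_0, …, a_n` of a polynomial of degree `≤ n` -/
noncomputable def value {R : Type*} [CommRing R] (n : ℕ) (I : MvPolynomial (Fin (n + 1)) ℤ)
    (F : R[X]) : R :=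
  MvPolynomial.aeval (fun i : Fin (n + 1) => F.coeff i) I

/-- `I` is an invariant of degree `k`, with integral coefficients, of the binary forms of degree
`2 g + 2`; `act n a b c d F = (c x + d) ^ n F ((a x + b) / (c x + d))` -/
structure IsInvariant (g k : ℕ) (I : MvPolynomial (Fin (2 * g + 2 + 1)) ℤ) : Prop where
  hom : I.IsHomogeneous k
  inv : ∀ (a b c d : ℂ) (F : ℂ[X]), a * d - b * c = 1 → F.natDegree ≤ 2 * g + 2 →
    value (2 * g + 2) I (act (2 * g + 2) a b c d F) = value (2 * g + 2) I F

/-- the embedding of `ℤ[T]` in `ℚ(T)` -/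
noncomputable def emb : ℤ[X] →+* RatFunc ℚ :=
  (algebraMap ℚ[X] (RatFunc ℚ)).comp (mapRingHom (Int.castRingHom ℚ))

/-- the generic member `y² = F` of the family `F ∈ ℤ[T][x]`, over `ℚ(T)` -/
noncomputable def generic (F : ℤ[X][X]) : (RatFunc ℚ)[X] := F.map emb

/-- the member `y² = F_t` at `t` -/
noncomputable def member (F : ℤ[X][X]) (t : ℚ) : ℚ[X] :=
  F.map (eval₂RingHom (Int.castRingHom ℚ) t)

/-- a family of curves of genus `g` with coefficients of degree at most `N` in `T` -/
structure IsFamily (g N : ℕ) (F : ℤ[X][X]) : Prop where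
  hyp : IsHyp g (generic F)
  deg : ∀ i, (F.coeff i).natDegree ≤ N

/-- `A / D` is a rational function of degree `M ≥ 1` in lowest terms -/
structure IsFunction (M : ℕ) (A D : ℤ[X]) : Prop where
  pos : 1 ≤ M
  deg_num : A.natDegree ≤ M
  deg_den : D.natDegree ≤ M
  deg : A.natDegree = M ∨ D.natDegree = M
  coprime : IsCoprime (A.map (Int.castRingHom ℚ)) (D.map (Int.castRingHom ℚ))

/-- `A / D` is the absolute invariant `J = I ^ (4 g + 2) / Δ ^ k` of the family -/
def IsAbsoluteInvariant (g k : ℕ) (I : MvPolynomial (Fin (2 * g + 2 + 1)) ℤ) (F : ℤ[X][X])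
    (A D : ℤ[X]) : Prop :=
  emb A / emb D = value (2 * g + 2) I (generic F) ^ (4 * g + 2) /
    discN (2 * g + 2) (generic F) ^ k

/-- the number of the different poles on the projective line over `ℂ` of the function `A / D` of
degree `M`: the roots of `D`, and infinity if `deg D < M` -/
noncomputable def poleCount (M : ℕ) (D : ℤ[X]) : ℕ :=
  (D.map (Int.castRingHom ℂ)).roots.toFinset.card + if D.natDegree < M then 1 else 0

/-- the curves `y² = P` and `y² = Q` are isomorphic over an algebraic closure -/
def GeomIso {K : Type} [Field K] (P Q : K[X]) : Prop :=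
  Nonempty (FunField (AlgebraicClosure K) (P.map (algebraMap K (AlgebraicClosure K))) 0
    ≃ₐ[AlgebraicClosure K]
    FunField (AlgebraicClosure K) (Q.map (algebraMap K (AlgebraicClosure K))) 0)

/-- the inequality `Δ_C ≤ M_C ^ κ` holds for all hyperelliptic curves `C : y² = P` over number
fields `K` of degree at most `d` that are geometrically isomorphic to `y² = Q` -/
def SzpiroForms (g d κ : ℕ) (Q : ℚ[X]) : Prop :=
  ∀ (K : Type) [Field K] [NumberField K], Module.finrank ℚ K ≤ d → ∀ P : K[X], IsHyp g P →
    GeomIso P (Q.map (algebraMap ℚ K)) → discNorm g P ≤ badNorm g P ^ κ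

/-- the member at `t` is a curve of genus `g` and satisfies `SzpiroForms` -/
def HoldsAt (g d κ : ℕ) (F : ℤ[X][X]) (t : ℚ) : Prop :=
  IsHyp g (member F t) ∧ SzpiroForms g d κ (member F t)

/-- **Theorem.** For all `g ≥ 2`, `d`, `N` and `ε > 0` there is an exponent `κ` such that for
every family `F` of curves of genus `g` with coefficients of degree at most `N` in `T` that has a
non-constant absolute invariant `J = I ^ (4 g + 2) / Δ ^ k = A / D`, the inequality
`Δ_C ≤ M_C ^ κ` holds for all forms `C`, over all number fields of degree at most `d`, of the member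
`y² = F_t`, for all rational `t` of height at most `B` with at most `C B ^ (1 + ε)` exceptions, with
at most `C B ^ ε` exceptions if `J` has at least two poles, and for all integers `|t| ≤ B` with at
most `C B ^ ε` exceptions if `J` has a finite pole. -/
theorem result (g d N : ℕ) (hg : 2 ≤ g) (ε : ℝ) (hε : 0 < ε) : ∃ κ : ℕ,
    ∀ (F : ℤ[X][X]), IsFamily g N F →
    ∀ (k : ℕ) (I : MvPolynomial (Fin (2 * g + 2 + 1)) ℤ), IsInvariant g k I →
    ∀ (M : ℕ) (A D : ℤ[X]), IsFunction M A D → IsAbsoluteInvariant g k I F A D →
      (∃ C : ℝ, ∀ B : ℕ, 1 ≤ B →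
        ({t : ℚ | |t.num| ≤ B ∧ t.den ≤ B ∧ ¬ HoldsAt g d κ F t}.ncard : ℝ) ≤
          C * (B : ℝ) ^ (1 + ε)) ∧
      (2 ≤ poleCount M D → ∃ C : ℝ, ∀ B : ℕ, 1 ≤ B →
        ({t : ℚ | |t.num| ≤ B ∧ t.den ≤ B ∧ ¬ HoldsAt g d κ F t}.ncard : ℝ) ≤
          C * (B : ℝ) ^ ε) ∧
      (1 ≤ D.natDegree → ∃ C : ℝ, ∀ B : ℕ, 1 ≤ B →
        ({t : ℤ | |t| ≤ B ∧ ¬ HoldsAt g d κ F t}.ncard : ℝ) ≤ C * (B : ℝ) ^ ε) := by
  have hC := Pool.Agent.N365.HY.t_C Pool.Agent.N365.HY.t_A Pool.Agent.N365.HY.t_B
  have hD := Pool.Agent.N365.HY.t_D Pool.Agent.N365.HY.t_A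
  have hE := Pool.Agent.N365.HY.t_E
  have hF := Pool.Agent.N365.HY.t_F
  have hG := Pool.Agent.N365.HY.t_G
  have hH := Pool.Agent.N365.HY.t_H
  refine ⟨Pool.Agent.N365.HY.kappa g d N (ε / 8), fun F hFam k I hI M A D hR hJ => ?_⟩
  have hR' : Pool.Agent.N365.LS.Rat M A D :=
    ⟨hR.pos, hR.deg_num, hR.deg_den, hR.deg, hR.coprime⟩
  have hFam' : Pool.Agent.N365.HY.Family g N F := ⟨hFam.hyp, hFam.deg⟩
  have hI' : Pool.Agent.N365.HY.IsInvariant g k I := ⟨hI.hom, hI.inv⟩
  have hpole : poleCount M D = Pool.Agent.N365.LS.poleCount M D := rfl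
  have hD0 : emb D ≠ 0 := by
    rw [Ne, map_eq_zero_iff emb Pool.Agent.N365.HY.emb_injective]
    exact hR'.D0
  have hdisc : discN (2 * g + 2) (generic F) ≠ 0 := by
    have h1 := Pool.Agent.W318.discN_ne_zero (by omega) hFam.hyp.good
    rwa [show g + 1 + (g + 1) = 2 * g + 2 by ring] at h1
  have hJ' : Pool.Agent.N365.HY.emb A *
      discN (2 * g + 2) (Pool.Agent.N365.HY.gen F) ^ k =
      Pool.Agent.N365.HY.emb D *
        Pool.Agent.N365.HY.ev (2 * g + 2) I (Pool.Agent.N365.HY.gen F) ^ (4 * g + 2) := by
    have h1 := (div_eq_div_iff hD0 (pow_ne_zero k hdisc)).mp hJ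
    exact h1.trans (mul_comm _ _)
  obtain ⟨C₁, h1⟩ := Pool.Agent.N365.HY.few_rat hC hD hE hF hG hH d N hg hε hFam' hI' hR' hJ'
  refine ⟨⟨max C₁ 0, fun B hB => ?_⟩, fun h2p => ⟨C₁, fun B hB => ?_⟩, fun hfin => ?_⟩
  · refine (h1 B hB).trans ?_
    have hB1 : (1 : ℝ) ≤ B := by exact_mod_cast hB
    have h3 : (B : ℝ) ^ (if 2 ≤ Pool.Agent.N365.LS.poleCount M D then ε else 1 + ε) ≤
        (B : ℝ) ^ (1 + ε) := by
      refine Real.rpow_le_rpow_of_exponent_le hB1 ?_
      split_ifs <;> linarith
    exact mul_le_mul (le_max_left _ _) h3 (by positivity) (le_max_right _ _)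
  · have h3 := h1 B hB
    rw [if_pos (hpole ▸ h2p)] at h3
    exact h3
  · exact Pool.Agent.N365.HY.few_int hC hD hE hF hG hH d N hg hε hFam' hI' hR' hfin hJ'

end Pool.Agent.Results.MP_ca2859_nt.EveryOneParameterFamily
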