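import Pool.Agent.N733.TG.K
import Pool.Agent.Results.MP_ca2859_nt.RationalWeierstrassPoints

/-!
# The discriminant bound for all hyperelliptic curves with heights near functions of the values of multiplicative functions

Hyperelliptic curves of genus `g ≥ 2` over a number field `K` all of whose Weierstrass points are rational: the twists by
`d ∈ K*` of `y² = X ∏ (X - x_i)`, where `x` is a point of `P^{2g-1}(K)` with `0, x_i` different. Let `f` be a positive
multiplicative function of at most polynomial growth such that `f p ≤ M p` for the large primes `p`, with different values at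
different large primes; for example Euler's function or the sum of the divisors. Let `α > 0`, `e ≥ 1`, `0 ≤ θ` and
`κ > 4 g + 4`. If `e` and `θ` are small in terms of `κ`, then for all `m ≤ N` but `N / (log N)^U` the inequality
`Δ_C ≤ c M_C ^ κ` holds for ALL twists of ALL such configurations `x` with `|H_K(x) ^ (2g) - α f(m)^e| ≤ f(m) ^ θ`; if
`κ < 4 g + 4` it fails for some twist of EACH such `x`, for all `m ≤ N` but `N / (log N)^U`. More generally `G (f m)` takes the
place of `α f(m)^e`, where `G` is any function with steps bounded below by a positive constant and growth at most `v^e`. The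
values of `f` are in general taken with very large multiplicities, and so this does not follow from the size of the exceptional
set.

The size of the exceptional set is bounded by the starting theorem `RationalWeierstrassPoints` of this problem.
-/

set_option autoImplicit false

open NumberField Height Finset LinearAlgebra.Projectivization Polynomial
open Pool.Agent.W318 (discNorm badNorm)

namespace Pool.Agent.Results.MP_ca2859_nt.MultiplicativeValues

open Pool.Agent.N733.TG (LM Expanding lm_totient lm_sigma keep_good expanding_pow)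

/-- the roots `0, x_0, ..., x_n` -/
def roots {K : Type} [Field K] {n : ℕ} (x : Fin (n + 1) → K) : Fin (n + 2) → K := Fin.cons 0 x

/-- the right hand side of `y² = d ∏ (X - e_i)`, the `e_i` being the roots -/
noncomputable def curve {K : Type} [Field K] {n : ℕ} (d : K) (x : Fin (n + 1) → K) : K[X] :=
  C d * ∏ i, (X - C (roots x i))

/-- the exponent above `4 g + 4` -/
noncomputable def expo (g : ℕ) (κ : ℝ) : ℝ :=
  min (max (2 * g - 1 / 2) (4 * g / (κ - 4 * g - 2)))
    (min (2 * g * (2 * g + 1) / (κ - 4 * g - 2)) (1 + 2 * g * (2 * g - 1) / (κ - 4 * g - 2)))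

/-- the exponent below `4 g + 4` -/
noncomputable def expoBelow (g : ℕ) (κ : ℝ) : ℝ :=
  max (2 * g - 1 / 2) (4 * g / (2 + (2 * g + 1) * (1 - κ / (4 * g + 4))))

lemma count_of {K : Type} [Field K] [NumberField K] {g n : ℕ} (hg : 2 ≤ g) (S : Set (ℙ K (Fin (n + 1) → K)))
    (F : ℝ → Set (ℙ K (Fin (n + 1) → K))) (e : ℝ)
    (hF : ∀ δ : ℝ, 0 < δ → ∃ M : ℝ, ∀ B : ℝ, 1 ≤ B → (F B).Finite ∧
      ((F B).ncard : ℝ) ≤ M * B ^ (Module.finrank ℚ K * e + δ))
    (hS : ∀ P ∈ S, ∀ B : ℝ, 1 ≤ B → Real.log P.mulHeight / Module.finrank ℚ K ≤ Real.log B → P ∈ F B)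
    (ε : ℝ) (hε : 0 < ε) :
    ∃ C : ℝ, ∀ X : ℝ, 1 ≤ X →
      {P | P ∈ S ∧ P.mulHeight ^ (2 * g) ≤ X}.Finite ∧
      ({P | P ∈ S ∧ P.mulHeight ^ (2 * g) ≤ X}.ncard : ℝ) ≤ C * X ^ (e / (2 * g) + ε) := by
  have hd : (0 : ℝ) < (Module.finrank ℚ K : ℝ) := by exact_mod_cast Module.finrank_pos
  set d : ℝ := (Module.finrank ℚ K : ℝ) with hd'
  have hg0 : (0 : ℝ) < g := by exact_mod_cast (by omega : 0 < g)
  obtain ⟨M, hM⟩ := hF (2 * g * d * ε) (by positivity)
  refine ⟨M, fun X hX => ?_⟩
  have hX0 : 0 < X := by linarith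
  have hB : 1 ≤ X ^ (1 / (2 * g * d)) := Real.one_le_rpow hX (by positivity)
  obtain ⟨hfin, hcard⟩ := hM (X ^ (1 / (2 * g * d))) hB
  have hsub : {P | P ∈ S ∧ P.mulHeight ^ (2 * g) ≤ X} ⊆ F (X ^ (1 / (2 * g * d))) := by
    rintro P ⟨hP, hPX⟩
    apply hS P hP _ hB
    have h1 : 0 < P.mulHeight := P.mulHeight_pos
    have h2 : Real.log (P.mulHeight ^ (2 * g)) ≤ Real.log X := Real.log_le_log (by positivity) hPX
    rw [Real.log_pow] at h2
    rw [Real.log_rpow hX0, div_le_iff₀ hd]
    push_cast at h2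
    have h3 : Real.log P.mulHeight ≤ Real.log X / (2 * g) := by
      rw [le_div_iff₀ (by positivity)]
      linarith
    refine h3.trans (le_of_eq ?_)
    field_simp
  refine ⟨hfin.subset hsub, ?_⟩
  have h4 : ({P | P ∈ S ∧ P.mulHeight ^ (2 * g) ≤ X}.ncard : ℝ) ≤ ((F (X ^ (1 / (2 * g * d)))).ncard : ℝ) := by
    exact_mod_cast Set.ncard_le_ncard hsub hfin
  refine (h4.trans hcard).trans (le_of_eq ?_)
  rw [← Real.rpow_mul hX0.le]
  congr 2
  field_simp

/-- **Theorem.** Let `f` be multiplicative and positive, of at most polynomial growth, with `f p ≤ M p` at the large primes,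
and injective there. Let `G` have steps `≥ a > 0` and growth at most `v^e`. Let `K` be a number field, `g ≥ 2`, `c > 0`,
`θ ≥ 0` and `U` a natural number. (1) If `κ > 4 g + 4` then `expo g κ < 2 g`, and if `e * expo g κ / (2 g) + θ < 1` then for
all large `N`, for all `m ≤ N` but at most `N / (log N)^U`, the inequality `Δ_C ≤ c M_C ^ κ` holds for ALL twists `d` of ALL
configurations `P` with different roots and `|H_K(P) ^ (2 g) - G (f m)| ≤ f(m) ^ θ`. (2) If `0 ≤ κ < 4 g + 4` then
`expoBelow g κ < 2 g`, and if `e * expoBelow g κ / (2 g) + θ < 1` then for all large `N`, for all `m ≤ N` but at most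
`N / (log N)^U`, for EACH such configuration the inequality fails for some twist. (3) Euler's function and the sum of the
divisors are examples of `f`, and `G v = α v^e` with `α > 0`, `e ≥ 1` is an example of `G`. -/
theorem result :
    (∀ f : ℕ → ℕ, LM f → ∀ (G : ℕ → ℝ) (e : ℝ), Expanding G e →
      ∀ (K : Type) [Field K] [NumberField K] (g n : ℕ) (κ c θ : ℝ), 2 ≤ g → n + 1 = 2 * g → 0 < c → 0 ≤ θ →
      (4 * g + 4 < κ → expo g κ < 2 * g ∧ (e * (expo g κ / (2 * g)) + θ < 1 → ∀ U : ℕ, ∃ N₀ : ℕ, ∀ N : ℕ, N₀ ≤ N →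
        ({m : ℕ | 1 ≤ m ∧ m ≤ N ∧ ¬ ∀ P : ℙ K (Fin (n + 1) → K), Function.Injective (roots P.rep) →
          |P.mulHeight ^ (2 * g) - G (f m)| ≤ (f m : ℝ) ^ θ → ∀ d : K, d ≠ 0 →
            (discNorm g (curve d P.rep) : ℝ) ≤ c * (badNorm g (curve d P.rep) : ℝ) ^ κ}.ncard : ℝ) ≤
          N / Real.log N ^ U)) ∧
      (0 ≤ κ → κ < 4 * g + 4 →
        expoBelow g κ < 2 * g ∧ (e * (expoBelow g κ / (2 * g)) + θ < 1 → ∀ U : ℕ, ∃ N₀ : ℕ, ∀ N : ℕ, N₀ ≤ N →
        ({m : ℕ | 1 ≤ m ∧ m ≤ N ∧ ¬ ∀ P : ℙ K (Fin (n + 1) → K), Function.Injective (roots P.rep) →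
          |P.mulHeight ^ (2 * g) - G (f m)| ≤ (f m : ℝ) ^ θ → ∃ d : K, d ≠ 0 ∧
            c * (badNorm g (curve d P.rep) : ℝ) ^ κ < (discNorm g (curve d P.rep) : ℝ)}.ncard : ℝ) ≤
          N / Real.log N ^ U))) ∧
    (LM Nat.totient ∧ LM (fun m => ∑ d ∈ m.divisors, d)) ∧
    ∀ α e : ℝ, 0 < α → 1 ≤ e → Expanding (fun v => α * (v : ℝ) ^ e) e := by
  refine ⟨fun f hf G e hG K _ _ g n κ c θ hg hn hc hθ => ⟨fun hκ => ?_, fun hκ0 hκ => ?_⟩, ⟨lm_totient, lm_sigma⟩,
    fun α e hα he => expanding_pow hα he⟩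
  · obtain ⟨h1, h2⟩ := (RationalWeierstrassPoints.result K g n hg hn κ).1 hκ
    have hg2 : (2 : ℝ) ≤ g := by exact_mod_cast hg
    have hs : 0 ≤ expo g κ := by
      have hk : 0 < κ - 4 * g - 2 := by linarith
      unfold expo
      refine le_min ((by linarith : (0 : ℝ) ≤ 2 * g - 1 / 2).trans (le_max_left _ _)) (le_min ?_ ?_)
      · positivity
      · have : (0 : ℝ) ≤ 2 * g - 1 := by linarith
        positivity
    refine ⟨h1, fun hle U => ?_⟩
    obtain ⟨N₀, hN₀⟩ := keep_good (T := ℙ K (Fin (n + 1) → K)) (fun P => Function.Injective (roots P.rep))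
      (fun P => ∀ d : K, d ≠ 0 → (discNorm g (curve d P.rep) : ℝ) ≤ c * (badNorm g (curve d P.rep) : ℝ) ^ κ)
      (fun P => P.mulHeight ^ (2 * g)) hf hG (s := expo g κ / (2 * g)) (κ := θ) (by positivity) hθ hle
      (count_of hg _ (fun B => RationalWeierstrassPoints.exceptional K g n κ c B) (expo g κ)
        (fun δ hδ => h2 c δ hc hδ) (fun P hP B hB hB2 => by
          have h3 := hP.2
          push Not at h3
          exact ⟨hP.1, hB2, h3⟩)) U
    exact ⟨N₀, hN₀⟩
  · obtain ⟨h1, h2⟩ := (RationalWeierstrassPoints.result K g n hg hn κ).2 hκ0 hκ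
    have hg2 : (2 : ℝ) ≤ g := by exact_mod_cast hg
    have hs : 0 ≤ expoBelow g κ := by
      unfold expoBelow
      exact (by linarith : (0 : ℝ) ≤ 2 * g - 1 / 2).trans (le_max_left _ _)
    refine ⟨h1, fun hle U => ?_⟩
    obtain ⟨N₀, hN₀⟩ := keep_good (T := ℙ K (Fin (n + 1) → K)) (fun P => Function.Injective (roots P.rep))
      (fun P => ∃ d : K, d ≠ 0 ∧ c * (badNorm g (curve d P.rep) : ℝ) ^ κ < (discNorm g (curve d P.rep) : ℝ))
      (fun P => P.mulHeight ^ (2 * g)) hf hG (s := expoBelow g κ / (2 * g)) (κ := θ) (by positivity) hθ hle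
      (count_of hg _ (fun B => RationalWeierstrassPoints.uniform K g n κ c B) (expoBelow g κ)
        (fun δ hδ => h2 c δ hc hδ) (fun P hP B hB hB2 => by
          have h3 := hP.2
          push Not at h3
          exact ⟨hP.1, hB2, h3⟩)) U
    exact ⟨N₀, hN₀⟩

end Pool.Agent.Results.MP_ca2859_nt.MultiplicativeValues
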