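import Pool.Agent.N141.TS.Hyp
import Pool.Agent.N384.VF.Big
import Pool.Agent.N384.VF.Ex

/-!
# MP_ca2859_nt: a Szpiro-type discriminant bound for almost all hyperelliptic curves whose vectors of coefficients are in
# families of vectors of residues

`IsHyp`, `minExp`, `discNorm`, `badNorm` are the definitions of `Pool/Agent/W318/SzpDefs.lean` (curves `y² = F(x)` of genus
`g`, exponents of the minimal discriminant, `Δ_C` and `M_C`, the product of the norms of the places of bad reduction).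

From Mathlib: `ZMod.stdAddChar`: the additive character `j ↦ exp (2 π i j / q)` of the integers modulo `q`; `ZMod.val`: the
least residue; `Fintype.piFinset`: the product of finite sets.

Proof. A family of vectors of residues modulo `q` with small Fourier coefficients is uniformly distributed
in the residue classes modulo all integers up to a power of `Z` (`N384/VF`: completion in each coordinate).
A positive proportion of `1 / p` of the monic polynomials modulo `p` have a double root and no root of multiplicity `g + 2`;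
if the reduction of the equation is such a polynomial then the curve has bad reduction at `p` (`Pool.Agent.TH4.HS.local_key`,
`Pool.Agent.N141.TS`). By Turan's sieve (`Pool.Agent.N666.TM`, `N141.TS.core0`) almost all members have such a prime `p` larger
than a power of `Z`, while `Δ_C` is at most a power of `q`. Examples: products, the lemma of Ajtai, Iwaniec, Komlos, Pintz and Szemeredi on quotients by small primes, the
Stepanov type lemma of Heath-Brown and Konyagin for subgroups (library `H435R3.HBK`, `N825.FC`), and Weyl sums without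
losses (library `H373R2.NB`).
-/

set_option autoImplicit false

namespace Pool.Agent.Results.MP_ca2859_nt.ResidueVectors

open Polynomial Pool.Agent.W318

/-- The Fourier coefficients of the vectors of residues `y i`, `i ∈ s`, modulo `q` at the nonzero frequencies are at most
`η` times the number of the vectors: `|∑ i ∈ s, e(h·y_i / q)| ≤ η |s|` for all vectors `h ≠ 0` modulo `q`. -/
def Flat {τ ι : Type} [Fintype ι] (q : ℕ) [NeZero q] (η : ℝ) (s : Finset τ) (y : τ → ι → ZMod q) : Prop :=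
  ∀ h : ι → ZMod q, h ≠ 0 → ‖∑ i ∈ s, (ZMod.stdAddChar (∑ j, h j * y i j) : ℂ)‖ ≤ η * s.card

/-- The same for residues (vectors with one coordinate). -/
def Flat1 {τ : Type} (q : ℕ) [NeZero q] (η : ℝ) (s : Finset τ) (y : τ → ZMod q) : Prop :=
  ∀ h : ZMod q, h ≠ 0 → ‖∑ i ∈ s, (ZMod.stdAddChar (h * y i) : ℂ)‖ ≤ η * s.card

/-- `Z ≤ q`, and the Fourier coefficients at the nonzero frequencies are at most `|s| / (Z (42 + 3 log q) ^ r)`, where `r` is
the number of the coordinates. -/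
def Small {τ ι : Type} [Fintype ι] (q : ℕ) [NeZero q] (Z : ℝ) (s : Finset τ) (y : τ → ι → ZMod q) : Prop :=
  Z ≤ q ∧ Flat q (1 / (Z * (42 + 3 * Real.log q) ^ Fintype.card ι)) s y

/-- The integral vector `c₀ + y_i`, with the least residues `0 ≤ y_i < q`. -/
def vec {τ ι : Type} {q : ℕ} (y : τ → ι → ZMod q) (c₀ : ι → ℤ) (i : τ) (j : ι) : ℤ := c₀ j + ((y i j).val : ℕ)

/-- the polynomial `X ^ m + ∑ v_i X ^ i` over `ℚ` -/
noncomputable def curve {m : ℕ} (v : Fin m → ℤ) : ℚ[X] := X ^ m + ∑ i : Fin m, C ((v i : ℤ) : ℚ) * X ^ (i : ℕ)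

/-- `y² = P(x)` is a curve `C` of genus `g` with `Δ_C ≤ M_C ^ κ` -/
def Bound (g : ℕ) (κ : ℝ) (P : ℚ[X]) : Prop :=
  IsHyp g P ∧ (discNorm g P : ℝ) ≤ (badNorm g P : ℝ) ^ κ

open Finset Filter Pool.Agent.TH4.HS Pool.Agent.N141.TS in
open Pool.Agent.Y722.HS (red) in
theorem main (g m : ℕ) (hg : 2 ≤ g) (hm : m = 2 * g + 1 ∨ m = 2 * g + 2) (ε β : ℝ) (B : ℕ) (hε : 0 < ε) (hβ : 0 < β) :
    ∃ (κ : ℝ) (Z₀ : ℕ), 0 < κ ∧ ∀ (τ : Type) (q : ℕ) [NeZero q] (s : Finset τ) (y : τ → Fin m → ZMod q) (Z : ℝ),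
      Z₀ ≤ Z → (q : ℝ) ^ β ≤ Z → Small q Z s y → ∀ c₀ : Fin m → ℤ, (∀ j, |(c₀ j : ℝ)| ≤ (q : ℝ) ^ B) →
      ({i : τ | i ∈ s ∧ ¬ Bound g κ (curve (vec y c₀ i))}.ncard : ℝ) ≤ ε * s.card := by
  classical
  obtain ⟨θ, hθ, Z₁, h1⟩ := Pool.Agent.N384.VF.big0 (UD_ne_zero (k := m) (by omega))
    (HO_mean (g := g) (m := m) (by omega) (by omega)) ε hε
  obtain ⟨C, M, hC, hDg⟩ := Pool.Agent.N384.VF.val_le (UD m) B
  obtain ⟨A₁, hA₁⟩ := exists_nat_ge ((3 : ℝ) ^ (1 / θ))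
  obtain ⟨A₂, hA₂⟩ := exists_nat_ge (2 ^ (4 * g) * C)
  refine ⟨(M + 1) / (θ * β), Z₁ + A₁ + A₂ + 1, by positivity, fun τ q _ s y Z hZ hqZ hsm c₀ hc₀ => ?_⟩
  have hZ' : (Z₁ : ℝ) + A₁ + A₂ + 1 ≤ Z := by exact_mod_cast hZ
  have hn1 : (0 : ℝ) ≤ Z₁ := Nat.cast_nonneg _
  have hn2 : (0 : ℝ) ≤ A₁ := Nat.cast_nonneg _
  have hn3 : (0 : ℝ) ≤ A₂ := Nat.cast_nonneg _
  have hZ1 : 1 ≤ Z := by linarith
  have hq1 : (1 : ℝ) ≤ q := by linarith [hsm.1]
  have hq0 : (0 : ℝ) < q := by linarith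
  have h3Z : (3 : ℝ) ≤ Z ^ θ := by
    calc (3 : ℝ) = ((3 : ℝ) ^ (1 / θ)) ^ θ := by
          rw [← Real.rpow_mul (by norm_num), one_div_mul_cancel hθ.ne', Real.rpow_one]
      _ ≤ Z ^ θ := Real.rpow_le_rpow (by positivity) (by linarith) hθ.le
  have hCq : 2 ^ (4 * g) * C ≤ q := by linarith [hsm.1]
  refine le_trans (Pool.Agent.N384.VF.ncard_mono fun i hi hbad => ?_) (h1 τ q s y Z (by linarith) ⟨hsm.1, hsm.2⟩ c₀)
  rintro ⟨hc2, p, hp, hpN, hpZ⟩
  have e : (mp (vec y c₀ i)).map (Int.castRingHom ℚ) = curve (vec y c₀ i) := by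
    rw [mp_map]
    rfl
  rw [← e] at hbad
  have hp2 : p ≠ 2 := by
    rintro rfl
    have : (3 : ℝ) ≤ ((2 : ℕ) : ℝ) := h3Z.trans hpN
    norm_num at this
  rw [UD_eval] at hc2
  have hF : IsHyp g ((mp (vec y c₀ i)).map (Int.castRingHom ℚ)) := isHyp_of hm (mp_monic _) (mp_natDegree _) hc2
  refine hbad ⟨hF, ?_⟩
  have h4 := le_badNorm hF hp (bad_of hg hm hp hp2 hc2 hpZ)
  have h5 := discNorm_le hm (mp_monic (vec y c₀ i)) (mp_natDegree _) hc2
  have h6 := hDg q (y i) c₀ hc₀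
  rw [UD_eval] at h6
  have h7 : (((mp (vec y c₀ i)).discr.natAbs : ℕ) : ℝ) = |(((mp (vec y c₀ i)).discr : ℤ) : ℝ)| := by
    rw [Nat.cast_natAbs, Int.cast_abs]
  have hqp : (q : ℝ) ^ (β * θ) ≤ p := by
    refine le_trans ?_ hpN
    rw [Real.rpow_mul hq0.le]
    exact Real.rpow_le_rpow (by positivity) hqZ hθ.le
  calc (discNorm g ((mp (vec y c₀ i)).map (Int.castRingHom ℚ)) : ℝ)
      ≤ ((2 ^ (4 * g) * (mp (vec y c₀ i)).discr.natAbs : ℕ) : ℝ) := by exact_mod_cast h5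
    _ = 2 ^ (4 * g) * |(((mp (vec y c₀ i)).discr : ℤ) : ℝ)| := by
        push_cast
        rw [← h7]
    _ ≤ 2 ^ (4 * g) * (C * (q : ℝ) ^ M) := mul_le_mul_of_nonneg_left h6 (by positivity)
    _ = (2 ^ (4 * g) * C) * (q : ℝ) ^ M := by ring
    _ ≤ (q : ℝ) * (q : ℝ) ^ M := by gcongr
    _ = (q : ℝ) ^ ((M : ℝ) + 1) := by
        rw [Real.rpow_add_one hq0.ne', Real.rpow_natCast, mul_comm]
    _ = ((q : ℝ) ^ (β * θ)) ^ (((M : ℝ) + 1) / (θ * β)) := by
        rw [← Real.rpow_mul hq0.le]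
        congr 1
        field_simp
    _ ≤ (p : ℝ) ^ (((M : ℝ) + 1) / (θ * β)) := Real.rpow_le_rpow (by positivity) hqp (by positivity)
    _ ≤ (badNorm g ((mp (vec y c₀ i)).map (Int.castRingHom ℚ)) : ℝ) ^ (((M : ℝ) + 1) / (θ * β)) :=
        Real.rpow_le_rpow (by positivity) (by exact_mod_cast h4) (by positivity)

/-- **(1)** Let `g ≥ 2`, `m = 2 g + 1` or `2 g + 2`, and let `ε, β > 0` and `B` be arbitrary. There are `κ` and `Z₀` such that
for all families of vectors `y_i`, `i ∈ s`, of residues modulo any `q` with `m` coordinates and Fourier coefficients at most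
`|s| / (Z (42 + 3 log q) ^ m)` at all nonzero frequencies, where `q ^ β ≤ Z ≤ q`, `Z ≥ Z₀`, and for all integral vectors `c₀` with
`|c₀| ≤ q ^ B`: for all but `ε |s|` of the `i` the equation `y² = x ^ m + ∑ v_j x ^ j`, `v = c₀ + y_i`, is a hyperelliptic curve `C` of genus
`g` over `ℚ` with `Δ_C ≤ M_C ^ κ`, hence `Δ_C ≤ N_C ^ κ`.

**(2)** Products: if the residues `y_j(t)`, `t ∈ s_j`, have Fourier coefficients at most `η |s_j|` for each coordinate `j`, then
the product family of vectors `(y_j(g_j))_j`, `g_j ∈ s_j`, has Fourier coefficients at most `η` times the number of its members.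

**(3)** Families of residues modulo primes `p` with Fourier coefficients at most `|s| / K`, `K ≥ 1` arbitrary: the quotients
`j / r` of the integers `0 ≤ j < S` by the primes `r ≤ R`, if `K log ^ 4 p ≤ R < p` and `R ^ 2 ≤ S` (and `p` is large); the cosets
of all subgroups of the multiplicative group of an order of at least `5 p ^ (3/8) K ^ 3`; the residues `a b + g(a) + k(b)`,
`a ∈ A`, `b ∈ B`, for arbitrary sets with `|A| |B| ≥ p K ^ 2` and arbitrary functions `g` and `k`.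

**(4)** Polynomial curves: for `1 ≤ d ≤ D` there is `C` such that for all primes `p` and all integral polynomials `f_j` of
pairwise distinct degrees between `d` and `D` whose leading coefficients are not divisible by `p`, the vectors `(f_j(n))_j`
modulo `p`, `0 ≤ n < x`, have Fourier coefficients at most `x / K` for all `K ≥ 1` with `C K ^ C ≤ p` and
`C K ^ C p ≤ x ^ d`. (So there are such families with only about `p ^ (1 / d)` members.) -/
theorem result :
    (∀ (g m : ℕ), 2 ≤ g → (m = 2 * g + 1 ∨ m = 2 * g + 2) → ∀ (ε β : ℝ) (B : ℕ), 0 < ε → 0 < β →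
      ∃ (κ : ℝ) (Z₀ : ℕ), 0 < κ ∧ ∀ (τ : Type) (q : ℕ) [NeZero q] (s : Finset τ) (y : τ → Fin m → ZMod q) (Z : ℝ),
        Z₀ ≤ Z → (q : ℝ) ^ β ≤ Z → Small q Z s y → ∀ c₀ : Fin m → ℤ, (∀ j, |(c₀ j : ℝ)| ≤ (q : ℝ) ^ B) →
        ({i : τ | i ∈ s ∧ ¬ Bound g κ (curve (vec y c₀ i))}.ncard : ℝ) ≤ ε * s.card) ∧
    (∀ (ι : Type) [Fintype ι] [DecidableEq ι] (q : ℕ) [NeZero q] (η : ℝ) (τ : Type) (s : ι → Finset τ) (y : ι → τ → ZMod q),
      (∀ j, Flat1 q η (s j) (y j)) → Flat q η (Fintype.piFinset s) (fun g j => y j (g j))) ∧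
    (∃ P₀ : ℕ, ∀ p : ℕ, P₀ ≤ p → ∀ [Fact p.Prime] (K : ℝ), 1 ≤ K →
      (∀ R S : ℕ, K * Real.log p ^ 4 ≤ R → R < p → R ^ 2 ≤ S →
        Flat1 p (1 / K) (((Finset.Icc 1 R).filter Nat.Prime) ×ˢ Finset.range S)
          (fun z => ((z.2 : ℕ) : ZMod p) * ((z.1 : ℕ) : ZMod p)⁻¹)) ∧
      (∀ (H : Subgroup (ZMod p)ˣ) (s : Finset (ZMod p)ˣ), (∀ u, u ∈ s ↔ u ∈ H) →
        5 * (p : ℝ) ^ (3 / 8 : ℝ) * K ^ 3 ≤ s.card → ∀ x : ZMod p, x ≠ 0 → Flat1 p (1 / K) s (fun u => x * (u : ZMod p))) ∧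
      (∀ (A B : Finset (ZMod p)) (g k : ZMod p → ZMod p), (p : ℝ) * K ^ 2 ≤ A.card * B.card →
        Flat1 p (1 / K) (A ×ˢ B) (fun z => z.1 * z.2 + g z.1 + k z.2))) ∧
    (∀ d D : ℕ, 1 ≤ d → ∃ C : ℕ, ∀ (ι : Type) [Fintype ι] (p : ℕ) [Fact p.Prime] (f : ι → Polynomial ℤ),
      (∀ j, d ≤ (f j).natDegree ∧ (f j).natDegree ≤ D ∧ ¬ (p : ℤ) ∣ (f j).leadingCoeff) →
      Function.Injective (fun j => (f j).natDegree) → ∀ K : ℝ, 1 ≤ K → C * K ^ C ≤ p → ∀ x : ℕ,
      C * K ^ C * p ≤ (x : ℝ) ^ d → Flat p (1 / K) (Finset.range x) (fun n j => (((f j).eval (n : ℤ) : ℤ) : ZMod p))) := by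
  refine ⟨fun g m hg hm ε β B hε hβ => main g m hg hm ε β B hε hβ, ⟨fun ι _ _ q _ η τ s y h => Pool.Agent.N384.VF.flat_pi q η s y h, ?_,
    fun d D hd => Pool.Agent.N384.VF.flat_poly d D hd⟩⟩
  obtain ⟨P₀, h0⟩ := Pool.Agent.N384.MQ.flatK_quot
  exact ⟨P₀, fun p hp _ K hK => ⟨fun R S => h0 p hp K hK R S,
    fun H s hs hc x hx => Pool.Agent.N384.MQ.flatK_coset p H s hs K hK hc x hx,
    fun A B g k hAB => Pool.Agent.N384.MQ.flatK_prod p A B g k K hK hAB⟩⟩

end Pool.Agent.Results.MP_ca2859_nt.ResidueVectors
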