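import Mathlib
import Pool.Agent.N141.TS.Hyp

/-!
# MP_ca2859_nt: a Szpiro-type discriminant bound for almost all hyperelliptic curves whose
# coefficients run through thin sequences

Let `g ≥ 2` and `m = 2 g + 1` or `2 g + 2`. Let `P_i(n) = ∑ a_x n ^ x`, `0 ≤ i < m`, be sums of real
powers with real coefficients whose largest exponents are positive, distinct and not integers and
have positive coefficients, for example `n ^ √2`, `n ^ (5/2)`, `π n ^ 0.3`. For every `ε > 0` there
is an exponent `κ` such that for all but `ε N` of the integers `n` in `(N, 2 N]`, and for all but the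
proportion `ε` of the primes `n` in `(N, 2 N]`, `N` large, the equation

`y² = x ^ m + ⌊P_{m-1}(n)⌋ x ^ (m-1) + … + ⌊P_1(n)⌋ x + ⌊P_0(n)⌋`

defines a hyperelliptic curve `C` of genus `g` over `ℚ` with `Δ_C ≤ M_C ^ κ`, hence `Δ_C ≤ N_C ^ κ`.
Only `N` of the members of the box are considered, and no coefficient is fixed.

`IsHyp`, `minExp`, `discNorm`, `badNorm` are the definitions of `Pool/Agent/W318/SzpDefs.lean`
(curves `y² = F(x)` of genus `g`, exponents of the minimal discriminant, `Δ_C` and `M_C`, the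
product of the norms of the places of bad reduction).

Proof. The integer vectors `⌊P_i(n)⌋` are jointly equidistributed modulo all `q ≤ N ^ δ`, over the
integers and over the primes (exponential sums, `Pool.Agent.N666`). A positive proportion of
`1 / p` of the monic polynomials modulo `p` have a double root and no root of multiplicity `g + 2`;
if the reduction of the equation is such a polynomial then the curve has bad reduction at `p`, since a
non-minimal equation has a root of multiplicity `g + 2` modulo `p` (`Pool.Agent.TH4.HS.local_key`).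
By Turan's sieve with the primes `p` in `(N ^ (τ δ), N ^ δ]`, `τ` small, all but the proportion `ε`
of the `n` have such a prime, while `Δ_C` is at most a power of `N`.
-/

set_option autoImplicit false

namespace Pool.Agent.Results.MP_ca2859_nt.ThinSequences

open Polynomial Pool.Agent.W318

/-- `c` is the largest exponent of the generalised polynomial `∑ a_x n ^ x`; it is positive and not
an integer and has a positive coefficient. -/
def Admissible (F : Finset ℝ) (a : ℝ → ℝ) (c : ℝ) : Prop :=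
  c ∈ F ∧ (∀ x ∈ F, x ≤ c) ∧ 0 < c ∧ (∀ m : ℕ, c ≠ m) ∧ 0 < a c

/-- the polynomial `X ^ m + ∑ ⌊P_i(n)⌋ X ^ i` over `ℚ` -/
noncomputable def curve {m : ℕ} (F : Fin m → Finset ℝ) (a : Fin m → ℝ → ℝ) (n : ℕ) : ℚ[X] :=
  X ^ m + ∑ i : Fin m, C ((⌊∑ x ∈ F i, a i x * (n : ℝ) ^ x⌋ : ℤ) : ℚ) * X ^ (i : ℕ)

/-- `y² = P(x)` is a curve `C` of genus `g` with `Δ_C ≤ M_C ^ κ` -/
def Bound (g : ℕ) (κ : ℝ) (P : ℚ[X]) : Prop :=
  IsHyp g P ∧ (discNorm g P : ℝ) ≤ (badNorm g P : ℝ) ^ κ

/-- **Theorem.** For all `g ≥ 2`, `m = 2 g + 1` or `2 g + 2`, all generalised polynomials `P_i`,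
`i < m`, with distinct leading exponents, and all `ε > 0` there are `κ` and `N₀` such that for
`N ≥ N₀` the equation `y² = x ^ m + ∑ ⌊P_i(n)⌋ x ^ i` is a curve of genus `g` with `Δ_C ≤ M_C ^ κ`
for all but `ε N` of the integers `n` in `(N, 2 N]` and for all but the proportion `ε` of the primes
in `(N, 2 N]`. -/
theorem result (g m : ℕ) (hg : 2 ≤ g) (hm : m = 2 * g + 1 ∨ m = 2 * g + 2)
    (F : Fin m → Finset ℝ) (a : Fin m → ℝ → ℝ) (c : Fin m → ℝ)
    (h : ∀ i, Admissible (F i) (a i) (c i)) (hc : Function.Injective c) (ε : ℝ) (hε : 0 < ε) :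
    ∃ (κ : ℝ) (N₀ : ℕ), 0 < κ ∧ ∀ N : ℕ, N₀ ≤ N →
      ({n : ℕ | n ∈ Finset.Ioc N (2 * N) ∧ ¬ Bound g κ (curve F a n)}.ncard : ℝ) ≤ ε * N ∧
      ({n : ℕ | n ∈ (Finset.Ioc N (2 * N)).filter Nat.Prime ∧
          ¬ Bound g κ (curve F a n)}.ncard : ℝ) ≤
        ε * ((Finset.Ioc N (2 * N)).filter Nat.Prime).card := by
  obtain ⟨κ, hκ, N₀, h1⟩ := Pool.Agent.N141.TS.hyp_thin hg hm ⟨h, hc⟩ ε hε
  refine ⟨κ, N₀, hκ, fun N hN => ?_⟩
  have e : ∀ n : ℕ, (Pool.Agent.N141.TS.mp (Pool.Agent.N666.TM.fl F a n)).map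
      (Int.castRingHom ℚ) = curve F a n := by
    intro n
    rw [Pool.Agent.N141.TS.mp_map]
    rfl
  obtain ⟨k1, k2⟩ := h1 N hN
  rw [Nat.card_Ioc, show 2 * N - N = N by omega] at k1
  simp only [e] at k1 k2
  exact ⟨k1, k2⟩

end Pool.Agent.Results.MP_ca2859_nt.ThinSequences
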